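import Pool.Agent.Y116.UV.Main

/-!
# The open part `y_0 z_0 ≠ 0` of an affine space

It is the product of an affine space and `𝔾_m × 𝔾_m`.
-/

set_option autoImplicit false

open CategoryTheory AlgebraicGeometry MvPolynomial Pool.Agent.Y116.UV

namespace Pool.Agent.Q137.UP

variable (R : Type) [CommRing R] (n : ℕ)

/-- The polynomial ring in `y_0, …, y_n, z_0`. -/
abbrev Amb : Type := MvPolynomial (Fin (n + 1) ⊕ Fin 1) R

/-- `y_0 z_0` -/
noncomputable def w0 : Amb R n := X (Sum.inl 0) * X (Sum.inr 0)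

/-- The homomorphism to the Laurent polynomials. -/
noncomputable def φ0 : Amb R n →ₐ[R] Tor (MvPolynomial (Fin n) R) :=
  aeval (Sum.elim (Fin.cons (tt _) fun i => ia _ (X i)) fun _ => ts _)

lemma φ0_y0 : φ0 R n (X (Sum.inl 0)) = tt _ := by
  rw [φ0, aeval_X, Sum.elim_inl, Fin.cons_zero]

lemma φ0_z0 : φ0 R n (X (Sum.inr 0)) = ts _ := by
  rw [φ0, aeval_X, Sum.elim_inr]

lemma φ0_y (i : Fin n) : φ0 R n (X (Sum.inl i.succ)) = ia _ (X i) := by
  rw [φ0, aeval_X, Sum.elim_inl, Fin.cons_succ]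

/-- The localization at `y_0 z_0`. -/
abbrev Loc0 : Type := Localization.Away (w0 R n)

/-- The map from the localization. -/
noncomputable def th' : Loc0 R n →ₐ[R] Tor (MvPolynomial (Fin n) R) :=
  IsLocalization.liftAlgHom (M := Submonoid.powers (w0 R n)) (f := φ0 R n) (by
    rintro ⟨_, k, rfl⟩
    rw [map_pow, w0, map_mul, φ0_y0, φ0_z0]
    exact (isUnit_tt.mul isUnit_ts).pow k)

lemma th'_mk (a : Amb R n) : th' R n (algebraMap (Amb R n) (Loc0 R n) a) = φ0 R n a := by
  rw [th', IsLocalization.liftAlgHom_apply, IsLocalization.lift_eq]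
  rfl

lemma isUnit_yz : IsUnit (algebraMap (Amb R n) (Loc0 R n) (X (Sum.inl 0))) ∧
    IsUnit (algebraMap (Amb R n) (Loc0 R n) (X (Sum.inr 0))) := by
  have h : IsUnit (algebraMap (Amb R n) (Loc0 R n) (X (Sum.inl 0)) *
      algebraMap (Amb R n) (Loc0 R n) (X (Sum.inr 0))) := by
    rw [← map_mul]
    exact IsLocalization.map_units (M := Submonoid.powers (w0 R n)) (Loc0 R n)
      ⟨_, Submonoid.mem_powers _⟩
  exact ⟨isUnit_of_mul_isUnit_left h, isUnit_of_mul_isUnit_right h⟩

/-- The inverse on the polynomial ring. -/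
noncomputable def ps0' : MvPolynomial (Fin n) R →ₐ[R] Loc0 R n :=
  aeval (fun i => algebraMap (Amb R n) (Loc0 R n) (X (Sum.inl i.succ)))

/-- The inverse homomorphism. -/
noncomputable def ps' : Tor (MvPolynomial (Fin n) R) →+* Loc0 R n :=
  LaurentPolynomial.eval₂ (LaurentPolynomial.eval₂ (ps0' R n).toRingHom (isUnit_yz R n).2.unit)
    (isUnit_yz R n).1.unit

lemma ps'_ia (a : MvPolynomial (Fin n) R) : ps' R n (ia _ a) = ps0' R n a := by
  rw [ps', ia, RingHom.comp_apply, LaurentPolynomial.eval₂_C, LaurentPolynomial.eval₂_C]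
  rfl

lemma ps'_ts : ps' R n (ts _) = algebraMap (Amb R n) (Loc0 R n) (X (Sum.inr 0)) := by
  rw [ps', ts, LaurentPolynomial.eval₂_C, LaurentPolynomial.eval₂_T, zpow_one]
  rfl

lemma ps'_tt : ps' R n (tt _) = algebraMap (Amb R n) (Loc0 R n) (X (Sum.inl 0)) := by
  rw [ps', tt, LaurentPolynomial.eval₂_T, zpow_one]
  rfl

lemma th'_ps' : (th' R n).toRingHom.comp (ps' R n) = RingHom.id _ := by
  apply tor_hom_ext
  · intro a
    have h : ((th' R n).toRingHom.comp ((ps' R n).comp (ia _))) = ia _ := by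
      apply MvPolynomial.ringHom_ext
      · intro r
        change th' R n (ps' R n (ia _ (C r))) = _
        rw [ps'_ia, ← algebraMap_eq, AlgHom.commutes, AlgHom.commutes, ia_algebraMap]
      · intro i
        change th' R n (ps' R n (ia _ (X i))) = _
        rw [ps'_ia, ps0', aeval_X, th'_mk, φ0_y]
    exact congrArg (fun k : MvPolynomial (Fin n) R →+* _ => k a) h
  · change th' R n (ps' R n (ts _)) = _
    rw [ps'_ts, th'_mk, φ0_z0]
    rfl
  · change th' R n (ps' R n (tt _)) = _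
    rw [ps'_tt, th'_mk, φ0_y0]
    rfl

lemma ps'_th' : (ps' R n).comp (th' R n).toRingHom = RingHom.id _ := by
  apply IsLocalization.ringHom_ext (Submonoid.powers (w0 R n))
  apply MvPolynomial.ringHom_ext
  · intro r
    change ps' R n (th' R n (algebraMap (Amb R n) (Loc0 R n) (C r))) = algebraMap _ _ (C r)
    rw [th'_mk, ← algebraMap_eq, AlgHom.commutes, ← ia_algebraMap, ps'_ia, AlgHom.commutes]
    rfl
  · rintro (i | i)
    · refine Fin.cases ?_ (fun i => ?_) i
      · change ps' R n (th' R n (algebraMap (Amb R n) (Loc0 R n) (X (Sum.inl 0)))) =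
          algebraMap _ _ (X (Sum.inl 0))
        rw [th'_mk, φ0_y0, ps'_tt]
      · change ps' R n (th' R n (algebraMap (Amb R n) (Loc0 R n) (X (Sum.inl i.succ)))) =
          algebraMap _ _ (X (Sum.inl i.succ))
        rw [th'_mk, φ0_y, ps'_ia, ps0', aeval_X]
    · have hi : i = 0 := Subsingleton.elim _ _
      subst hi
      change ps' R n (th' R n (algebraMap (Amb R n) (Loc0 R n) (X (Sum.inr 0)))) =
        algebraMap _ _ (X (Sum.inr 0))
      rw [th'_mk, φ0_z0, ps'_ts]

/-- `D(y_0 z_0)` is the product of an affine space and `𝔾_m × 𝔾_m`. -/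
noncomputable def spaceEquiv : Loc0 R n ≃ₐ[R] Tor (MvPolynomial (Fin n) R) :=
  AlgEquiv.ofRingEquiv (f := RingEquiv.ofRingHom (th' R n).toRingHom
    (ps' R n) (th'_ps' R n) (ps'_th' R n)) (fun r => (th' R n).commutes r)

end Pool.Agent.Q137.UP
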