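import Pool.Agent.Q49.WU.Pair
import Pool.Agent.Q137.UP.Space

/-!
# Families of properties of schemes, without an assumption on the affine spaces

As in `Pool.Agent.Q49.WU.Main`, for properties `P N X` which need not be known for the affine spaces (for
example because they are not known for the point).
-/

set_option autoImplicit false

open CategoryTheory AlgebraicGeometry TopologicalSpace MvPolynomial Pool.Agent.Y116.UV
  Pool.Agent.Q193.LT Pool.Agent.Q49.WU

universe w w'

namespace Pool.Agent.Q137.UP

/-- The properties `P N` of schemes of finite type over `R` are closed under closed-open decompositions,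
they descend from `X × 𝔾_m` to `X` for affine schemes `X`, and the affine bundles of Jouanolou with fibre
of dimension `m - 1` shift the index by `m - 1`. -/
structure WOpen {R : Type} [CommRing R] (sep : Prop) (P : ℤ → Sch R → Prop) : Prop where
  iso : ∀ (N : ℤ) {X Y : Sch R}, FT sep X → Nonempty (X ≅ Y) → P N X → P N Y
  total : ∀ (N : ℤ) {Z X U : Sch R} (i : Z ⟶ X) (j : U ⟶ X), FT sep X → IsTriple i j →
    P N Z → P N U → P N X
  opened : ∀ (N : ℤ) {Z X U : Sch R} (i : Z ⟶ X) (j : U ⟶ X), FT sep X → IsTriple i j →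
    P N Z → P N X → P N U
  closed : ∀ (N : ℤ) {Z X U : Sch R} (i : Z ⟶ X) (j : U ⟶ X), FT sep X → IsTriple i j →
    P N X → P N U → P N Z
  jouanolou : ∀ (N : ℤ) (A : Type) [CommRing A] [Algebra R A] [Algebra.FiniteType R A] (m : ℕ)
    (f : Fin m → A) (U : Sch R) (j : U ⟶ aff R A), IsOpenImmersion j.left →
    Set.range j.left = {x : PrimeSpectrum A | ∃ l, f l ∉ x.asIdeal} →
    (P (N + (m - 1)) (aff R (Jou f)) ↔ P N U)
  torus : ∀ (N : ℤ) (A : Type) [CommRing A] [Algebra R A] [Algebra.FiniteType R A],
    P N (aff R (LaurentPolynomial A)) → P N (aff R A)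

variable {R : Type} [CommRing R] {sep : Prop} {P : ℤ → Sch R → Prop} {N : ℤ}

lemma iso_alg (hP : WOpen sep P) {A B : Type} [CommRing A] [CommRing B] [Algebra R A] [Algebra R B]
    [Algebra.FiniteType R A] (e : A ≃ₐ[R] B) (h : P N (aff R A)) : P N (aff R B) :=
  hP.iso N (ft_aff sep) ⟨(affIso e).symm⟩ h

/-- From the affine bundle over the complement of `f = 0` to the closed subscheme `f = 0`. -/
lemma of_jou (hP : WOpen sep P) {A : Type} [CommRing A] [Algebra R A] [Algebra.FiniteType R A]
    {m : ℕ} (f : Fin m → A) (hA : P N (aff R A)) (hJ : P (N + (m - 1)) (aff R (Jou f))) :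
    P N (aff R (A ⧸ Ideal.span (Set.range f))) :=
  hP.closed N _ _ (ft_aff sep) (jou_triple f) hA
    ((hP.jouanolou N A m f (opn (aff R A) (neOpen R f)) (opnMap (aff R A) (neOpen R f))
      inferInstance (range_opnMap _ _)).mp hJ)

/-- From the closed subscheme `f = 0` to the affine bundle over its complement. -/
lemma to_jou (hP : WOpen sep P) {A : Type} [CommRing A] [Algebra R A] [Algebra.FiniteType R A]
    {m : ℕ} (f : Fin m → A) (hA : P N (aff R A))
    (hZ : P N (aff R (A ⧸ Ideal.span (Set.range f)))) : P (N + (m - 1)) (aff R (Jou f)) :=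
  (hP.jouanolou N A m f (opn (aff R A) (neOpen R f)) (opnMap (aff R A) (neOpen R f))
      inferInstance (range_opnMap _ _)).mpr
    (hP.opened N _ _ (ft_aff sep) (jou_triple f) hZ hA)

section

variable {S : Set R} (hP : WOpen sep P) (h0 : 0 ∈ S) (h1 : 1 ∈ S)
  (hH : ∀ (a b c : ℕ) (T : Fin a → Fin b → Fin c → R), (∀ i j k, T i j k ∈ S) →
    P (N + (a - 1)) (aff R (Hyp T)))

include hP hH

lemma hyp_fintype {a : ℕ} {β γ : Type} [Fintype β] [Fintype γ] (T : Fin a → β → γ → R)
    (hT : ∀ i j k, T i j k ∈ S) : P (N + (a - 1)) (aff R (Hyp T)) :=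
  iso_alg hP (hypRename (Equiv.refl (Fin a)) (Fintype.equivFin β).symm
    (Fintype.equivFin γ).symm T) (hH _ _ _ _ fun _ _ _ => hT _ _ _)

include h0 h1

/-- The affine spaces: the hypersurface `x_0 y_0 z_0 = 1` in the variables `x_0`, `y_0, …, y_n`, `z_0` is
the product of `𝔾_m × 𝔾_m` and an affine space. -/
lemma space (n : ℕ) : P N (aff R (MvPolynomial (Fin n) R)) := by
  classical
  let T : Fin 1 → Fin (n + 1) → Fin 1 → R := fun _ j k => if j = 0 ∧ k = 0 then 1 else 0
  have hT : ∀ i j k, T i j k ∈ S := by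
    intro i j k
    by_cases h : j = 0 ∧ k = 0
    · simpa only [T, if_pos h] using h1
    · simpa only [T, if_neg h] using h0
  have h2 : P (N + ((1 : ℕ) - 1)) (aff R (Jou fun i => bil (Fin (n + 1)) (Fin 1) (T i))) :=
    iso_alg hP (hypEquiv T) (hyp_fintype hP hH T hT)
  have h3 : (fun i : Fin 1 => bil (Fin (n + 1)) (Fin 1) (T i)) = fun _ => w0 R n := by
    funext i
    exact bil_single 0 0
  rw [h3] at h2
  have h4 := (hP.jouanolou N (Amb R n) 1 (fun _ => w0 R n) (aff R (Localization.Away (w0 R n)))
    (affMap (IsScalarTower.toAlgHom R (Amb R n) (Localization.Away (w0 R n))))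
    (triple_away (w0 R n)).opened (by
      have h : Set.range (affMap (IsScalarTower.toAlgHom R (Amb R n)
          (Localization.Away (w0 R n)))).left =
          (PrimeSpectrum.basicOpen (w0 R n) : Set (PrimeSpectrum (Amb R n))) :=
        PrimeSpectrum.localization_away_comap_range _ (w0 R n)
      rw [h]
      ext x
      exact ⟨fun hx => ⟨0, hx⟩, fun ⟨_, hx⟩ => hx⟩)).mp h2
  have h6 : Algebra.FiniteType R (Localization.Away (w0 R n)) :=
    Algebra.FiniteType.trans (S := Amb R n) inferInstance inferInstance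
  have h7 := ft_laurent (R := R) (MvPolynomial (Fin n) R)
  exact hP.torus N _ (hP.torus N _ (iso_alg hP (spaceEquiv R n) h4))

lemma of_bil {β γ κ : Type} [Fintype β] [Fintype γ] [Fintype κ] (f : κ → MvPolynomial (β ⊕ γ) R)
    (hf : ∀ k, f k ∈ bilIn S β γ) :
    P N (aff R (MvPolynomial (β ⊕ γ) R ⧸ Ideal.span (Set.range f))) := by
  let e := (Fintype.equivFin κ).symm
  have h3 : Set.range f = Set.range (f ∘ e) := by
    rw [Set.range_comp, e.range_eq_univ, Set.image_univ]
  rw [h3]
  choose T hTS hT using hf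
  refine of_jou hP (f ∘ e) ?_ ?_
  · exact iso_alg hP (renameEquiv R (Fintype.equivFin (β ⊕ γ)).symm) (space hP h0 h1 hH _)
  · have h2 : f ∘ e = fun i => bil β γ (T (e i)) := by
      funext i
      exact (hT (e i)).symm
    rw [h2]
    exact iso_alg hP (hypEquiv fun i => T (e i)) (hyp_fintype hP hH _ fun _ _ _ => hTS _ _ _)

lemma of_cone {A : Type} [CommRing A] [Algebra R A] [Algebra.FiniteType R A] {n D : ℕ} (hD : 1 ≤ D)
    (G : Finset (MvPolynomial (Fin n) R)) (φ : MvPolynomial (Fin n) R →ₐ[R] A)
    (hd : ∀ g ∈ G, ∀ m ∈ g.support, m.degree ≤ D) (hs : Function.Surjective φ)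
    (hK : RingHom.ker φ = Ideal.span (G : Set (MvPolynomial (Fin n) R)))
    (hc : ∀ g ∈ G, ∀ m, coeff m g ∈ S) : P N (aff R A) := by
  classical
  have hG : ∀ g ∈ G, φ g = 0 := by
    intro g hg
    have : g ∈ RingHom.ker φ := by
      rw [hK]
      exact Ideal.subset_span hg
    exact this
  have hA : P N (aff R (Cone hD G)) := of_bil hP h0 h1 hH (eqs hD G) (eqs_mem hD G h0 h1 hc)
  let f' : Option (Mon n D ⊕ (Mon n D × Fin n) ⊕ G) → UVRing R n D := fun k =>
    k.elim (uu R (mo n D) * vv R (mo n D)) (eqs hD G)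
  have h2 : P N (aff R (UVRing R n D ⧸ Ideal.span (Set.range f'))) := by
    apply of_bil hP h0 h1 hH f'
    rintro (_ | k)
    · exact single_mem h0 h1 _ _
    · exact eqs_mem hD G h0 h1 hc k
  have h3 : Ideal.span (Set.range f') =
      eqI hD G ⊔ Ideal.span {uu R (mo n D) * vv R (mo n D)} := by
    rw [eqI, ← Ideal.span_union]
    congr 1
    ext x
    constructor
    · rintro ⟨_ | k, rfl⟩
      · exact Or.inr rfl
      · exact Or.inl ⟨k, rfl⟩
    · rintro (⟨k, rfl⟩ | rfl)
      · exact ⟨some k, rfl⟩
      · exact ⟨none, rfl⟩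
  rw [h3] at h2
  have h4 : P N (aff R (Cone hD G ⧸ Ideal.span {cw hD G})) := by
    have e := (DoubleQuot.quotQuotEquivQuotSupₐ R (eqI hD G)
      (Ideal.span {uu R (mo n D) * vv R (mo n D)})).symm
    have h5 := iso_alg (B := Cone hD G ⧸ Ideal.map (Ideal.Quotient.mkₐ R (eqI hD G))
      (Ideal.span {uu R (mo n D) * vv R (mo n D)})) hP e h2
    have h6 : Ideal.map (Ideal.Quotient.mkₐ R (eqI hD G))
        (Ideal.span {uu R (mo n D) * vv R (mo n D)}) = Ideal.span {cw hD G} := by
      rw [Ideal.map_span, Set.image_singleton]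
      rfl
    rw [← h6]
    exact h5
  have h5 : P N (aff R (LCone hD G)) :=
    hP.opened N _ _ (ft_aff sep) (triple_away (cw hD G)) h4 hA
  have h6 : Algebra.FiniteType R (LCone hD G) :=
    Algebra.FiniteType.trans (S := Cone hD G) inferInstance inferInstance
  have h7 := ft_laurent (R := R) A
  exact hP.torus N A (hP.torus N _ (iso_alg hP (coneEquiv hD G φ hG hd hs hK) h5))

/-- The affine case. -/
theorem affine_case (hS : Presents S) (A : Type) [CommRing A] [Algebra R A]
    [Algebra.FiniteType R A] : P N (aff R A) := by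
  classical
  obtain ⟨n, φ, G, hs, hK, hc⟩ := hS A
  let D : ℕ := 1 + ∑ g ∈ G, ∑ m ∈ g.support, m.degree
  refine of_cone hP h0 h1 hH (D := D) (by omega) G φ ?_ hs hK hc
  intro g hg m hm
  have h1 : m.degree ≤ ∑ m ∈ g.support, m.degree :=
    Finset.single_le_sum (f := fun m : Fin n →₀ ℕ => m.degree) (fun _ _ => Nat.zero_le _) hm
  have h2 : ∑ m ∈ g.support, m.degree ≤ ∑ g ∈ G, ∑ m ∈ g.support, m.degree :=
    Finset.single_le_sum (f := fun g : MvPolynomial (Fin n) R => ∑ m ∈ g.support, m.degree)
      (fun _ _ => Nat.zero_le _) hg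
  omega

/-- If `P (N + (a - 1))` is true for the hypersurfaces `T(x_1, …, x_a, y, z) = 1` of the trilinear forms
`T` with coefficients in `S`, then `P N` is true for every (separated) scheme of finite type. -/
theorem universal (hS : Presents S) (X : Sch R) (hX : FT sep X) : P N X :=
  of_affine' (hP.iso N) (hP.total N) (fun A _ _ _ => affine_case hP h0 h1 hH hS A) X hX

end

/-- The converse: from all schemes of finite type to the trilinear forms. -/
theorem to_hyp (hP : WOpen sep P) (h : ∀ X : Sch R, FT sep X → P N X) {a b c : ℕ}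
    (T : Fin a → Fin b → Fin c → R) : P (N + (a - 1)) (hypS T) := by
  have h2 := to_jou hP (N := N) (fun i => bil (Fin b) (Fin c) (T i)) (h _ (ft_aff sep))
    (h _ (ft_aff sep))
  exact iso_alg hP (hypEquiv T).symm h2

/-- All schemes of finite type, and all trilinear forms. -/
theorem all_iff [IsNoetherianRing R] (hP : WOpen sep P) : (∀ X : Sch R, FT sep X → P N X) ↔
    ∀ (a b c : ℕ) (T : Fin a → Fin b → Fin c → R), P (N + (a - 1)) (hypS T) := by
  constructor
  · intro h a b c T
    exact to_hyp hP h T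
  · intro h X hX
    exact universal hP (S := Set.univ) trivial trivial (fun a b c T _ => h a b c T)
      presents_univ X hX

/-- Over a ring in which all elements are quotients of integers: all schemes of finite type, and the
tripartite hypergraphs. -/
theorem graph_iff [IsNoetherianRing R] (hR : Frac R) (hP : WOpen sep P) :
    (∀ X : Sch R, FT sep X → P N X) ↔
      ∀ (a b c : ℕ) (H : Finset (Fin a × Fin b × Fin c)), P (N + (a - 1)) (tripS R H) := by
  classical
  constructor
  · intro h a b c H
    have h2 := to_hyp hP h (fun i j k => if (i, j, k) ∈ H then (1 : R) else 0)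
    unfold tripS Trip
    rw [← tri_ind]
    exact h2
  · intro h X hX
    refine universal hP (S := {0, 1}) (Or.inl rfl) (Or.inr rfl) ?_ (presents_frac hR) X hX
    intro a b c T hT
    let H : Finset (Fin a × Fin b × Fin c) := Finset.univ.filter fun h => T h.1 h.2.1 h.2.2 = 1
    have h1 : T = fun i j k => if (i, j, k) ∈ H then (1 : R) else 0 := by
      funext i j k
      have hm : (i, j, k) ∈ H ↔ T i j k = 1 := by
        rw [Finset.mem_filter]
        exact ⟨fun h => h.2, fun h => ⟨Finset.mem_univ _, h⟩⟩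
      by_cases h : T i j k = 1
      · rw [if_pos (hm.mpr h), h]
      · rw [if_neg fun h2 => h (hm.mp h2)]
        rcases hT i j k with h2 | h2
        · exact h2
        · exact absurd h2 h
    have h2 := h a b c H
    unfold tripS Trip at h2
    rw [← tri_ind, ← h1] at h2
    exact h2

/-! ## Comparison maps -/

variable {ι : Type} {E : Type w'} [CommRing E] {D : PairData.{w} R ι E} {wt : ι → ℤ}
  {δ τ σ : ι ≃ ι}

/-- Closure properties, without an assumption on the point. -/
theorem wopen_pair (hD : IsPair D δ τ σ) (hg : IsGraded wt δ τ σ) : WOpen True (BijAt D wt) := by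
  have hbun : ∀ (N : ℤ) (B : Type) [CommRing B] [Algebra R B] [Algebra.FiniteType R B] (m : ℕ)
      (f : Fin m → B) (U : Sch R) (j : U ⟶ aff R B), IsOpenImmersion j.left →
      Set.range j.left = {x : PrimeSpectrum B | ∃ l, f l ∉ x.asIdeal} →
      (BijAt D wt (N + (m - 1)) (aff R (Jou f)) ↔ BijAt D wt N U) := by
    intro N B _ _ _ m f U j hj hr
    constructor
    · intro h q hq
      obtain ⟨q, rfl⟩ := ((τ : Equiv.Perm ι) ^ (1 - m : ℤ)).surjective q
      refine (hD.bundle B m f U j hj hr q).iff.mp (h q ?_)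
      rw [hg.pow] at hq
      omega
    · intro h q hq
      refine (hD.bundle B m f U j hj hr q).iff.mpr (h _ ?_)
      rw [hg.pow]
      omega
  exact
  { iso := fun N X Y hX e h j hj => (hD.iso hX e j).iff.mp (h j hj)
    total := fun N Z X U i j hX ht hZ hU => by
      rw [cut_iff] at *
      rcases hD.les i j hX ht with h | h
      · exact (cut_les hg.δ h).mid hU hZ
      · exact (cut_les hg.δ h).mid hZ hU
    opened := fun N Z X U i j hX ht hZ hX' => by
      rw [cut_iff] at *
      rcases hD.les i j hX ht with h | h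
      · exact (cut_les hg.δ h).left hX' hZ
      · exact (cut_les hg.δ h).right hZ hX'
    closed := fun N Z X U i j hX ht hX' hU => by
      rw [cut_iff] at *
      rcases hD.les i j hX ht with h | h
      · exact (cut_les hg.δ h).right hU hX'
      · exact (cut_les hg.δ h).left hX' hU
    jouanolou := fun N B _ _ _ m f U j hj hr => hbun N B m f U j hj hr
    torus := fun N B _ _ _ h q hq => (hD.torus B q).bij (h _ (by rw [hg.σ]; exact hq)) }

section

variable {k : Type} [Field k] {C : PairData.{w} k ι E} (hw : GenAt C wt) (hC : IsPair C δ τ σ)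
  (hg : IsGraded wt δ τ σ)

include hw hC hg

/-- Smooth projective schemes in weight `N`, and trilinear forms. -/
theorem sp_forms (N : ℤ) : (∀ Y : Sch k, SmoothProj Y → BijAt C wt N Y) ↔
      ∀ (a b c : ℕ) (T : Fin a → Fin b → Fin c → k), BijAt C wt (N + (a - 1)) (hypS T) := by
  rw [← all_iff (wopen_pair hC hg)]
  exact ⟨fun h => hw N h, fun h Y hY => h Y hY.ft⟩

/-- Over a prime field: smooth projective schemes in weight `N`, and hypergraphs. -/
theorem sp_graphs (hF : Frac k) (N : ℤ) : (∀ Y : Sch k, SmoothProj Y → BijAt C wt N Y) ↔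
      ∀ (a b c : ℕ) (H : Finset (Fin a × Fin b × Fin c)),
        BijAt C wt (N + (a - 1)) (tripS k H) := by
  rw [← graph_iff hF (wopen_pair hC hg)]
  exact ⟨fun h => hw N h, fun h Y hY => h Y hY.ft⟩

end

end Pool.Agent.Q137.UP
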